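import Mathlib
import Pool.Agent.W2helper37.AQ.Main

/-!
# The ACC for minimal log discrepancies of quotients of arrangements of hyperplanes by finite groups

`(Y, B_Y)`: any pair and any closed point `y` of it, `K_Y + B_Y` is `ℝ`-Cartier at `y` with the local
equation `eY`, such that étale locally at `y` the pair is the quotient of a pair `(X, B_X)` by a finite
group `G`, where `(X, B_X)` is étale locally an arrangement of hyperplanes in the affine space of
dimension `n`, on which the stabiliser acts linearly (`IsArrQuotient`): there are

* an étale neighbourhood `Z → Y` of `y` (`Etale`: standard étale algebras), and a normal affine variety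
  `X` with a finite group `G` and `X / G = Z` (`Cover`: `L / F` is the Galois extension of function
  fields, the ring of `Z` is the ring of invariants of the ring of `X`), a closed point `x` of `X` over
  `y`, which need not be fixed by `G`;
* an effective divisor `B_X` such that `K_X + B_X` is the pull-back of `K_Y + B_Y` (the action of `G`
  may have fixed divisors);
* for every `σ` in the stabiliser of `x` an étale chart of `(X, B_X)` at `x` for the cyclic group of `σ`
  (`ArrChart`): étale morphisms `X ← U → 𝔸^n` at a closed point `u` of `U`, where the boundary on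
  `𝔸^n` is at the image of `u` any arrangement of hyperplanes with coefficients in `Γ`: any number of
  hyperplanes in any position, and `σ` comes from an automorphism of `U` which lies over an affine
  linear automorphism of `𝔸^n`. Different `σ` may have different charts.

Theorem: for every `n` and every DCC set `Γ` the set of the minimal log discrepancies
`mld (Y ∋ y, B_Y) ≥ 0` of these pairs satisfies the ascending chain condition.

`contains_quotients`: the class contains the quotients of arrangements of hyperplanes in `𝔸^n` by
finite groups of affine linear maps (not necessarily abelian), at all closed points.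

Proof. `mld (Y ∋ y, B_Y)` is the least value of `a (E, X, B_X) / |I_E|`, `E` a divisor over `x` with
the inertia group `I_E` (`Cover.mld_iff`). Let `E` be a divisor which computes it. The space of linear
functions which vanish at `x` has a basis which is adapted to the valuation of `E` (`exists_adapted`)
and consists of eigenvectors of a generator of `I_E` (`exists_eig`). In these coordinates the
discrepancy of `E` is at least the one of the monomial valuation with the same weights, and the
hyperplanes have the same order; and all monomial valuations with weights in the cyclic group given by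
`I_E` bound the minimal log discrepancy from above (`core2`). So it is one of the combinatorial minimal
log discrepancies of a finite group and ideals generated by variables, for which the ACC is known
(starting file `TH165.ACC.Main`).

Definitions: `Pool.Agent.W2helper37.AQ.Defs` (`IsAff`, `IsArrAt`, `ArrChart`, `IsArrQuotient`,
`arrQuotMlds`), `Pool.Agent.W2helper37.GQ.Defs` (`Cover`, `Cover.X`, `Cover.im`, `Cover.St`,
`Cover.IsPull`), and the starting files `H436R3.Fol.Defs`, `H436R3.KT.Defs`, `W497.Mld.Defs`,
`W497.Mld.Aff` (`jo`, `cv`, `RA`), `Helper58K9.ET.Defs` (`Etale`), `Q47.TV.Loc` (`FixesPt`),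
`TH165.ACC.Main` (`IsDCC`, `IsACC`).
-/

set_option autoImplicit false

namespace Pool.Agent.Results.MP_df5e61_ag.ArrangementQuotients

open Pool.Agent.H436R3.Fol Pool.Agent.H436R3.KT Pool.Agent.W497.Mld Pool.Agent.TH165.ACC
  Pool.Agent.W2helper37.GQ Pool.Agent.W2helper37.AQ Q47.TV

/-- The class contains the arrangements of hyperplanes in the affine space, at all closed points. -/
theorem contains_arrangements (n : ℕ) (Γ : Set ℝ)
    {Y : AffVar (FractionRing (MvPolynomial (Fin n) ℂ))} {B : EffDiv Y} (hB : CoeffIn B Γ)
    {y : Pt Y} (harr : IsArrAt n B y) (e : LocEq B y) (m : ℝ) (hm0 : 0 ≤ m)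
    (hm : Pool.Agent.W497.Mld.IsMld e m) : m ∈ arrQuotMlds n Γ :=
  ⟨hm0, _, inferInstance, inferInstance, Y, B, y, e, plain_mem n Γ hB harr e, hm⟩

/-- The class contains the quotients `Z = 𝔸^n / G` of arrangements of hyperplanes by finite groups of
affine linear maps, at all closed points. -/
theorem contains_quotients (n : ℕ) (Γ : Set ℝ) {F : Type} [Field F] [Algebra ℂ F]
    [Algebra F (FractionRing (MvPolynomial (Fin n) ℂ))]
    [IsScalarTower ℂ F (FractionRing (MvPolynomial (Fin n) ℂ))]
    [FiniteDimensional F (FractionRing (MvPolynomial (Fin n) ℂ))]
    [IsGalois F (FractionRing (MvPolynomial (Fin n) ℂ))]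
    {Z : AffVar F} (C : Cover Z (FractionRing (MvPolynomial (Fin n) ℂ)))
    (haff : ∀ (σ : FractionRing (MvPolynomial (Fin n) ℂ) ≃ₐ[F] FractionRing (MvPolynomial (Fin n) ℂ))
      (i : Fin n), IsAff n (σ (cv _ i)))
    (x : Pt C.X) {BX : EffDiv C.X} (hB : CoeffIn BX Γ) (harr : IsArrAt n BX x) (eX : LocEq BX x)
    {BZ : EffDiv Z} (eZ : LocEq BZ (C.im x)) (hp : C.IsPull eX eZ) (m : ℝ) (hm0 : 0 ≤ m)
    (hm : Pool.Agent.W497.Mld.IsMld eZ m) : m ∈ arrQuotMlds n Γ :=
  ⟨hm0, F, inferInstance, inferInstance, Z, BZ, C.im x, eZ,
    affine_mem n Γ C haff x hB harr eX eZ hp, hm⟩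

/-- **The ACC for the minimal log discrepancies of all pairs which are étale locally quotients of
arrangements of hyperplanes in the affine space of dimension `n` by finite groups**, with coefficients
in the DCC set `Γ`. -/
theorem result (n : ℕ) (Γ : Set ℝ) (hΓ : Pool.Agent.TH165.ACC.IsDCC Γ) :
    Pool.Agent.TH165.ACC.IsACC (arrQuotMlds n Γ) :=
  acc_arrq n Γ hΓ

end Pool.Agent.Results.MP_df5e61_ag.ArrangementQuotients
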