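import Mathlib
import Pool.Agent.W2helper37.GQ.Toric

/-!
# The ACC for minimal log discrepancies of quotients of toroidal pairs by finite groups

`(Y, B_Y)`: any pair and any closed point `y` of it, `K_Y + B_Y` is `ℝ`-Cartier at `y` with the local
equation `eY`, such that étale locally at `y` the pair is the quotient of a pair `(X, B_X)` by a finite
group `G`, where `(X, B_X)` is étale locally toric (`IsToroidalQuotient`): there are

* an étale neighbourhood `Z → Y` of `y` (`Etale`: standard étale algebras), and a normal affine variety
  `X` with a finite group `G` and `X / G = Z` (`Cover`: `L / F` is the Galois extension of function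
  fields, the ring of `Z` is the ring of invariants of the ring of `X`), a closed point `x` of `X` over
  `y`, which need not be fixed by `G`;
* an effective divisor `B_X` such that `K_X + B_X` is the pull-back of `K_Y + B_Y` (the action of `G`
  may have fixed divisors);
* for every `σ` in the stabiliser of `x` an étale toric chart of `(X, B_X)` at `x` for the cyclic group
  of `σ` (`EtChart`): étale morphisms `X ← U → X_σ` at a closed point `u` of `U`, where `X_σ` is an
  affine toric variety of dimension `n` with a torus invariant boundary with coefficients in `Γ`, and
  `σ` comes from an automorphism of `U` which lies over a monomial automorphism of `X_σ`. Different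
  `σ` may have different charts. (By Steinberg's theorem on semisimple automorphisms and Luna's slice
  theorem, which are not part of the Lean file, such charts exist for finite groups acting on smooth
  varieties with `B_X = 0`, on toric varieties, ...)

Theorem: for every `n` and every DCC set `Γ` the set of the minimal log discrepancies
`mld (Y ∋ y, B_Y) ≥ 0` of these pairs satisfies the ascending chain condition.

`quotMlds` is about genuine minimal log discrepancies of `(Y, B_Y)`, over all prime divisors over `Y`
with centre `y`. New ingredients beside the combinatorial theorem of `Pool.Agent.Q47` about the numbers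
`a (E, X, B_X) / |inertia group of E|`: the ramification index of a divisor in a Galois extension is
the order of its inertia group (`ram_eq`), the Riemann–Hurwitz formula for all divisors over `X` and
`Z` (`can_cover'`), divisors over `x` and over its image correspond (`Cover.lift`, `Cover.restrict`),
the formula for the minimal log discrepancy of a quotient (`Cover.mld_iff`), étale morphisms
(`isEtale_of`, `rigid`).

Definitions: `Pool.Agent.W2helper37.GQ.Defs` (`Cover`, `Cover.X`, `Cover.im`, `Cover.St`,
`Cover.IsPull`, `EtChart`,
`IsToroidalQuotient`, `quotMlds`), and the starting files `H436R3.Fol.Defs`, `H436R3.KT.Defs`,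
`W497.Mld.Defs`, `Helper58K9.ET.Defs` (`Etale`), `Q47.TV.Germ` (`TorAff`), `Q47.QM.Mono` (`IsMono`),
`Q47.TV.Loc` (`FixesPt`), `TH165.ACC` (`IsDCC`, `IsACC`, `cv`, `ym`, `pr`).
-/

set_option autoImplicit false

namespace Pool.Agent.Results.MP_df5e61_ag.FiniteQuotients

open Pool.Agent.H436R3.Fol Pool.Agent.H436R3.KT Pool.Agent.W497.Mld Pool.Agent.TH165.ACC
  Pool.Agent.W2helper37.GQ Q47.TV

/-- The class contains all toric pairs, at all closed points. -/
theorem contains_toric (n : ℕ) (Γ : Set ℝ)
    (g : TorAff n (FractionRing (MvPolynomial (Fin n) ℂ))) (B : EffDiv g.X) (hB : CoeffIn B Γ)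
    (htor : ∀ v : DVal (FractionRing (MvPolynomial (Fin n) ℂ)),
      (∀ i : Fin n, v.ord (cv _ i) = 0) → B.mult v = 0)
    (y : Pt g.X) (e : LocEq B y) (m : ℝ) (hm0 : 0 ≤ m)
    (hm : Pool.Agent.W497.Mld.IsMld e m) : m ∈ quotMlds n Γ :=
  ⟨hm0, _, inferInstance, inferInstance, g.X, B, y, e, toric_mem n Γ g B hB htor y e, hm⟩

/-- **The ACC for the minimal log discrepancies of all pairs which are étale locally quotients of
toroidal pairs of dimension `n` by finite groups**, with coefficients in the DCC set `Γ`. -/
theorem result (n : ℕ) (Γ : Set ℝ) (hΓ : Pool.Agent.TH165.ACC.IsDCC Γ) :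
    Pool.Agent.TH165.ACC.IsACC (quotMlds n Γ) :=
  acc_quot n Γ hΓ

end Pool.Agent.Results.MP_df5e61_ag.FiniteQuotients
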